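import Pool.Agent.W2helper9.SD.Stm
import Pool.Agent.Helper819.Good

/-!
# Piece RED of project SD: from the closure to the moduli space
-/

set_option autoImplicit false

open MvPolynomial IsDedekindDomain NumberField

namespace Pool.Agent.W2helper17.SD

open Pool.Agent.Helper819.Dyn Pool.Agent.Helper819.Zar Pool.Agent.W2helper9.SD

noncomputable section

theorem hom_ext {R : Type} [CommRing R] (f g : Z2 →+* R) : f = g := by
  refine IsLocalization.ringHom_ext (Submonoid.powers (2 : ℤ)) ?_
  exact RingHom.ext_int _ _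

theorem intGood_isEnd {N d : ℕ} {T : Tuple Z2 N} (hT : IntGood N d T) {κ : Type} [Field κ]
    (φ : Z2 →+* κ) : IsEnd d (fun i => map φ (T i)) := by
  refine ⟨fun i => (hT.1 i).map φ, fun x hx => ?_⟩
  refine hT.2 (AlgebraicClosure κ) ((algebraMap κ (AlgebraicClosure κ)).comp φ) x fun i => ?_
  have h1 := hx i
  rw [aeval_def, eval₂_map] at h1
  exact h1

theorem isUnit_val {K : Type} [Field K] [NumberField K] (v : HeightOneSpectrum (𝓞 K))
    (hv : v.valuation K 2 = 1) :
    IsUnit ((Int.castRingHom (v.valuation K).valuationSubring) (2 : ℤ)) := by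
  have h20 : (2 : K) ≠ 0 := two_ne_zero
  have hinv : (2⁻¹ : K) ∈ (v.valuation K).valuationSubring := by
    rw [Valuation.mem_valuationSubring_iff, map_inv₀, hv, inv_one]
  have hmul : (2 : (v.valuation K).valuationSubring) * ⟨2⁻¹, hinv⟩ = 1 := by
    apply Subtype.ext
    change (2 : K) * 2⁻¹ = 1
    exact mul_inv_cancel₀ h20
  have h3 : (Int.castRingHom (v.valuation K).valuationSubring) (2 : ℤ) = 2 := by simp
  rw [h3]
  exact IsUnit.of_mul_eq_one _ hmul

theorem isUnit_two' (K : Type) [Field K] [CharZero K] :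
    IsUnit ((Int.castRingHom K) (2 : ℤ)) := by
  rw [isUnit_iff_ne_zero]
  simp

theorem good_at {K : Type} [Field K] [NumberField K] (v : HeightOneSpectrum (𝓞 K))
    (hv : v.valuation K 2 = 1) {N d : ℕ} {T : Tuple Z2 N} (hT : IntGood N d T) (φ : Z2 →+* K) :
    HasGoodReductionAt d (fun i => map φ (T i)) v := by
  let ψ : Z2 →+* (v.valuation K).valuationSubring :=
    IsLocalization.Away.lift (2 : ℤ) (isUnit_val v hv)
  refine ⟨1, 1, fun i => map ψ (T i), ?_, ?_⟩
  · intro i
    rw [conj_one, map_map, hom_ext ((algebraMap (v.valuation K).valuationSubring K).comp ψ) φ]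
    simp
  · have h1 := intGood_isEnd hT
      ((IsLocalRing.residue (v.valuation K).valuationSubring).comp ψ)
    have h2 : (fun i => map (IsLocalRing.residue (v.valuation K).valuationSubring)
        (map ψ (T i))) =
        fun i => map ((IsLocalRing.residue (v.valuation K).valuationSubring).comp ψ) (T i) := by
      funext i
      rw [map_map]
    exact h2 ▸ h1

theorem mem_goodSet {N d : ℕ} {T : Tuple Z2 N} (hT : IntGood N d T)
    (K : IntermediateField ℚ (AlgebraicClosure ℚ)) [NumberField K] :
    cls ⟨fun i => map io (T i), intGood_isEnd hT io⟩ ∈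
      goodSet N d K {v : HeightOneSpectrum (𝓞 K) | v.valuation K 2 ≠ 1} := by
  let φ : Z2 →+* K := IsLocalization.Away.lift (2 : ℤ) (isUnit_two' K)
  have h1 : (fun i => map (algebraMap K (AlgebraicClosure ℚ)) (map φ (T i))) =
      fun i => map io (T i) := by
    funext i
    rw [map_map, hom_ext ((algebraMap K (AlgebraicClosure ℚ)).comp φ) io]
  refine ⟨fun i => map φ (T i), ?_, ?_, ?_⟩
  · rw [h1]
    exact intGood_isEnd hT io
  · intro v hv
    have hv' : v.valuation K 2 = 1 := by
      by_contra hcon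
      exact hv hcon
    exact good_at v hv' hT φ
  · congr 1
    exact Subtype.ext h1.symm

theorem dense (N d : ℕ) (h : ∀ F : Tuple Kb N, (∀ i, (F i).IsHomogeneous d) → F ∈ Zcl N d)
    (K : IntermediateField ℚ (AlgebraicClosure ℚ)) [NumberField K] :
    closure (goodSet N d K {v : HeightOneSpectrum (𝓞 K) | v.valuation K 2 ≠ 1}) = Set.univ := by
  by_contra hcon
  rw [← Ne, Set.ne_univ_iff_exists_notMem] at hcon
  obtain ⟨m, hm⟩ := hcon
  obtain ⟨F, rfl⟩ := cls_surjective m
  have hopen : IsOpen ((cls : EndTuple (AlgebraicClosure ℚ) N d → _) ⁻¹'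
      (closure (goodSet N d K {v : HeightOneSpectrum (𝓞 K) | v.valuation K 2 ≠ 1}))ᶜ) :=
    isClosed_closure.isOpen_compl.preimage continuous_cls
  obtain ⟨_, ⟨p, rfl⟩, hFp, hpU⟩ :=
    (isZar_coords (AlgebraicClosure ℚ) N d).isTopologicalBasis.exists_subset_of_mem_open
      (show F ∈ _ from hm) hopen
  apply hFp
  refine (h F.1 F.2.1).2 p fun T hT => ?_
  by_contra hne
  have h1 : (⟨fun i => map io (T i), intGood_isEnd hT io⟩ :
      EndTuple (AlgebraicClosure ℚ) N d) ∈ {F | eval (coords F) p ≠ 0} := hne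
  exact hpU h1 (subset_closure (mem_goodSet hT K))

theorem p_red : P_RED := by
  intro N d h
  refine ⟨fun K _ => dense N d h K, ?_⟩
  apply le_antisymm
  · refine iSup_le fun K => iSup_le fun hK => iSup_le fun S => iSup_le fun _ => ?_
    exact topologicalKrullDim_subspace_le _ _
  · have hfd : FiniteDimensional ℚ (⊥ : IntermediateField ℚ (AlgebraicClosure ℚ)) :=
      LinearEquiv.finiteDimensional
        (IntermediateField.botEquiv ℚ (AlgebraicClosure ℚ)).symm.toLinearEquiv
    have hK : NumberField (⊥ : IntermediateField ℚ (AlgebraicClosure ℚ)) :=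
      { to_charZero := inferInstance, to_finiteDimensional := hfd }
    refine le_trans ?_ (le_iSup_of_le (⊥ : IntermediateField ℚ (AlgebraicClosure ℚ))
      (le_iSup_of_le hK (le_iSup_of_le
        {v : HeightOneSpectrum (𝓞 (⊥ : IntermediateField ℚ (AlgebraicClosure ℚ))) |
          v.valuation _ 2 ≠ 1} (le_iSup_of_le (finite_bad _) le_rfl))))
    rw [dense N d h]
    exact (IsHomeomorph.topologicalKrullDim_eq _
      (Homeomorph.Set.univ (Moduli (AlgebraicClosure ℚ) N d)).isHomeomorph).ge

end

end Pool.Agent.W2helper17.SD
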